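import Mathlib
import Pool.Agent.H934R3.NP.Stmts

set_option autoImplicit false
set_option maxHeartbeats 4000000

open MeasureTheory Set Filter Topology
open scoped ENNReal NNReal

namespace Pool.Agent.H108R4.NP

open Pool.Agent.H934R3.NP

/-! Calculus of the regularised fundamental solution. -/

lemma q_pos {ε : ℝ} (hε : 0 < ε) (w : E) : 0 < ‖w‖ ^ 2 + ε ^ 2 := by positivity

lemma s_pos {ε : ℝ} (hε : 0 < ε) (w : E) : 0 < Real.sqrt (‖w‖ ^ 2 + ε ^ 2) :=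
  Real.sqrt_pos.2 (q_pos hε w)

lemma s_sq {ε : ℝ} (hε : 0 < ε) (w : E) : Real.sqrt (‖w‖ ^ 2 + ε ^ 2) ^ 2 = ‖w‖ ^ 2 + ε ^ 2 :=
  Real.sq_sqrt (q_pos hε w).le

lemma le_s {ε : ℝ} (w : E) : ‖w‖ ≤ Real.sqrt (‖w‖ ^ 2 + ε ^ 2) := by
  apply Real.le_sqrt_of_sq_le
  nlinarith [sq_nonneg ε]

lemma s_contDiff {ε : ℝ} (hε : 0 < ε) {n : WithTop ℕ∞} (y : E) :
    ContDiff ℝ n (fun z : E => Real.sqrt (‖z - y‖ ^ 2 + ε ^ 2)) := by
  apply ContDiff.sqrt
  · exact ((contDiff_id.sub contDiff_const).norm_sq ℝ).add contDiff_const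
  · intro z; exact (q_pos hε _).ne'

lemma s_hasFDerivAt {ε : ℝ} (hε : 0 < ε) (y z : E) :
    HasFDerivAt (fun z : E => Real.sqrt (‖z - y‖ ^ 2 + ε ^ 2))
      ((1 / Real.sqrt (‖z - y‖ ^ 2 + ε ^ 2)) • innerSL ℝ (z - y)) z := by
  have h1 : HasFDerivAt (fun z : E => ‖z - y‖ ^ 2 + ε ^ 2) ((2 : ℝ) • innerSL ℝ (z - y)) z := by
    have h0 : HasFDerivAt (fun z : E => z - y) (ContinuousLinearMap.id ℝ E) z :=
      (hasFDerivAt_id z).sub_const y
    have h2 := (hasStrictFDerivAt_norm_sq (z - y)).hasFDerivAt.comp z h0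
    have h3 := h2.add_const (ε ^ 2)
    refine h3.congr_fderiv ?_
    ext v
    simp
  have h2 := h1.sqrt (q_pos hε _).ne'
  refine h2.congr_fderiv ?_
  have hs := s_pos hε (z - y)
  rw [smul_smul]
  congr 1
  field_simp

lemma Ge_contDiff {ε : ℝ} (hε : 0 < ε) {n : WithTop ℕ∞} (y : E) :
    ContDiff ℝ n (fun z : E => Ge ε (z - y)) := by
  unfold Ge
  apply ContDiff.div contDiff_const (contDiff_const.mul (s_contDiff hε y))
  intro z
  have := s_pos hε (z - y)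
  have := Real.pi_pos
  positivity

lemma Ge_hasFDerivAt {ε : ℝ} (hε : 0 < ε) (y z : E) :
    HasFDerivAt (fun z : E => Ge ε (z - y)) (innerSL ℝ (dGe ε (z - y))) z := by
  have hs := s_pos hε (z - y)
  have hpi := Real.pi_pos
  have h1 := (s_hasFDerivAt hε y z).const_mul (4 * Real.pi)
  have h2 := (hasDerivAt_inv (x := 4 * Real.pi * Real.sqrt (‖z - y‖ ^ 2 + ε ^ 2))
    (by positivity)).comp_hasFDerivAt z h1
  have h3 : (fun z : E => Ge ε (z - y)) =
      (fun x => x⁻¹) ∘ (fun z : E => 4 * Real.pi * Real.sqrt (‖z - y‖ ^ 2 + ε ^ 2)) := by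
    funext z
    simp [Ge]
  rw [h3]
  refine h2.congr_fderiv ?_
  ext v
  simp only [dGe, map_smul, smul_apply, innerSL_apply_apply, smul_eq_mul]
  field_simp

lemma fderiv_Ge {ε : ℝ} (hε : 0 < ε) (y z v : E) :
    fderiv ℝ (fun z : E => Ge ε (z - y)) z v = inner ℝ (dGe ε (z - y)) v := by
  rw [(Ge_hasFDerivAt hε y z).fderiv, innerSL_apply_apply]

lemma norm_dGe_le (ε : ℝ) (w : E) : ‖dGe ε w‖ ≤ 1 / (4 * Real.pi) * (1 / ‖w‖ ^ 2) := by
  have hpi := Real.pi_pos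
  by_cases hw : w = 0
  · subst hw; simp [dGe]
  have hw' : 0 < ‖w‖ := norm_pos_iff.2 hw
  have hs : ‖w‖ ≤ Real.sqrt (‖w‖ ^ 2 + ε ^ 2) := le_s w
  have hs0 : 0 < Real.sqrt (‖w‖ ^ 2 + ε ^ 2) := lt_of_lt_of_le hw' hs
  unfold dGe
  rw [norm_smul, norm_neg, Real.norm_eq_abs, abs_of_pos (by positivity)]
  have h1 : ‖w‖ ^ 3 ≤ Real.sqrt (‖w‖ ^ 2 + ε ^ 2) ^ 3 := pow_le_pow_left₀ hw'.le hs 3
  calc 1 / (4 * Real.pi * Real.sqrt (‖w‖ ^ 2 + ε ^ 2) ^ 3) * ‖w‖
      ≤ 1 / (4 * Real.pi * ‖w‖ ^ 3) * ‖w‖ := by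
        apply mul_le_mul_of_nonneg_right _ hw'.le
        apply one_div_le_one_div_of_le (by positivity)
        apply mul_le_mul_of_nonneg_left h1 (by positivity)
    _ = 1 / (4 * Real.pi) * (1 / ‖w‖ ^ 2) := by field_simp

lemma norm_dG (w : E) : ‖dG w‖ = 1 / (4 * Real.pi) * (1 / ‖w‖ ^ 2) := by
  have hpi := Real.pi_pos
  by_cases hw : w = 0
  · subst hw; simp [dG]
  have hw' : 0 < ‖w‖ := norm_pos_iff.2 hw
  unfold dG
  rw [norm_smul, norm_neg, Real.norm_eq_abs, abs_of_pos (by positivity)]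
  field_simp

lemma Ge_nonneg (ε : ℝ) (w : E) : 0 ≤ Ge ε w := by
  unfold Ge; have := Real.pi_pos; positivity

lemma G_nonneg (w : E) : 0 ≤ G w := by
  unfold G; have := Real.pi_pos; positivity

lemma Ge_le_G (ε : ℝ) {w : E} (hw : w ≠ 0) : Ge ε w ≤ G w := by
  have hpi := Real.pi_pos
  have hw' : 0 < ‖w‖ := norm_pos_iff.2 hw
  unfold Ge G
  apply one_div_le_one_div_of_le (by positivity)
  exact mul_le_mul_of_nonneg_left (le_s w) (by positivity)

lemma dGe_tendsto {w : E} (hw : w ≠ 0) :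
    Tendsto (fun ε : ℝ => dGe ε w) (𝓝[>] 0) (𝓝 (dG w)) := by
  have hpi := Real.pi_pos
  have hw' : 0 < ‖w‖ := norm_pos_iff.2 hw
  have h1 : Tendsto (fun ε : ℝ => dGe ε w) (𝓝 0) (𝓝 (dGe 0 w)) := by
    apply ContinuousAt.tendsto
    unfold dGe
    refine ContinuousAt.smul (f := fun ε : ℝ => -(1 / (4 * Real.pi * √(‖w‖ ^ 2 + ε ^ 2) ^ 3)))
      (g := fun _ => w) ?_ continuousAt_const
    apply ContinuousAt.neg
    apply ContinuousAt.div continuousAt_const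
    · exact ContinuousAt.mul continuousAt_const
        (((continuous_const.add (continuous_id.pow 2)).sqrt).continuousAt.pow 3)
    · have : 0 < Real.sqrt (‖w‖ ^ 2 + (0:ℝ) ^ 2) := Real.sqrt_pos.2 (by positivity)
      positivity
  have h2 : dGe 0 w = dG w := by
    unfold dGe dG
    simp [Real.sqrt_sq hw'.le]
  rw [← h2]
  exact h1.mono_left nhdsWithin_le_nhds

lemma Ge_tendsto {w : E} (hw : w ≠ 0) :
    Tendsto (fun ε : ℝ => Ge ε w) (𝓝[>] 0) (𝓝 (G w)) := by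
  have hpi := Real.pi_pos
  have hw' : 0 < ‖w‖ := norm_pos_iff.2 hw
  have h1 : Tendsto (fun ε : ℝ => Ge ε w) (𝓝 0) (𝓝 (Ge 0 w)) := by
    apply ContinuousAt.tendsto
    unfold Ge
    apply ContinuousAt.div continuousAt_const
    · exact ContinuousAt.mul continuousAt_const
        (((continuous_const.add (continuous_id.pow 2)).sqrt).continuousAt)
    · have : 0 < Real.sqrt (‖w‖ ^ 2 + (0:ℝ) ^ 2) := Real.sqrt_pos.2 (by positivity)
      positivity
  have h2 : Ge 0 w = G w := by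
    unfold Ge G
    simp [Real.sqrt_sq hw'.le]
  rw [← h2]
  exact h1.mono_left nhdsWithin_le_nhds

lemma dGe_zero (ε : ℝ) : dGe ε 0 = 0 := by simp [dGe]
lemma dG_zero : dG 0 = 0 := by simp [dG]
lemma dG_neg (w : E) : dG (-w) = - dG w := by simp [dG]

/-- the coordinate derivative of `dGe` -/
lemma dGe_comp_contDiff {ε : ℝ} (hε : 0 < ε) {n : WithTop ℕ∞} (y : E) (i : Fin 3) :
    ContDiff ℝ n (fun z : E => dGe ε (z - y) i) := by
  have h : (fun z : E => dGe ε (z - y) i) = fun z : E =>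
      (-(1 / (4 * Real.pi * Real.sqrt (‖z - y‖ ^ 2 + ε ^ 2) ^ 3))) *
        (EuclideanSpace.proj i : E →L[ℝ] ℝ) (z - y) := by
    funext z; simp [dGe]
  rw [h]
  apply ContDiff.mul
  · apply ContDiff.neg
    apply ContDiff.div contDiff_const (contDiff_const.mul ((s_contDiff hε y).pow 3))
    intro z
    have := s_pos hε (z - y)
    have := Real.pi_pos
    positivity
  · exact (ContinuousLinearMap.contDiff _).comp (contDiff_id.sub contDiff_const)

lemma dGe_comp_fderiv {ε : ℝ} (hε : 0 < ε) (y z : E) (i : Fin 3) :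
    fderiv ℝ (fun z : E => dGe ε (z - y) i) z (EuclideanSpace.single i 1) =
      -(1 / (4 * Real.pi)) * (1 / Real.sqrt (‖z - y‖ ^ 2 + ε ^ 2) ^ 3
        - 3 * (z - y) i ^ 2 / Real.sqrt (‖z - y‖ ^ 2 + ε ^ 2) ^ 5) := by
  have hs := s_pos hε (z - y)
  have hpi := Real.pi_pos
  have h : (fun z : E => dGe ε (z - y) i) = fun z : E =>
      (-(1 / (4 * Real.pi))) * (((Real.sqrt (‖z - y‖ ^ 2 + ε ^ 2)) ^ 3)⁻¹ *
        (EuclideanSpace.proj i : E →L[ℝ] ℝ) (z - y)) := by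
    funext z
    have := s_pos hε (z - y)
    simp [dGe]
    field_simp
  rw [h]
  have h1 : HasFDerivAt (fun z : E => (EuclideanSpace.proj i : E →L[ℝ] ℝ) (z - y))
      (EuclideanSpace.proj i : E →L[ℝ] ℝ) z := by
    have h0 : HasFDerivAt (fun z : E => z - y) (ContinuousLinearMap.id ℝ E) z :=
      (hasFDerivAt_id z).sub_const y
    exact (((EuclideanSpace.proj i : E →L[ℝ] ℝ).hasFDerivAt (x := z - y)).comp z h0)
  have h2 := (s_hasFDerivAt hε y z).pow 3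
  have h3 := (hasDerivAt_inv (x := Real.sqrt (‖z - y‖ ^ 2 + ε ^ 2) ^ 3)
    (by positivity)).comp_hasFDerivAt z h2
  have h4 := (h3.mul h1).const_mul (-(1 / (4 * Real.pi)))
  refine (congrArg (fun L : E →L[ℝ] ℝ => L (EuclideanSpace.single i 1)) h4.fderiv).trans ?_
  simp [EuclideanSpace.inner_single_right]
  field_simp
  ring

lemma sum_fderiv_dGe {ε : ℝ} (hε : 0 < ε) (y z : E) :
    ∑ i : Fin 3, fderiv ℝ (fun z : E => dGe ε (z - y) i) z (EuclideanSpace.single i 1) =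
      - De ε (z - y) := by
  have hs := s_pos hε (z - y)
  have hpi := Real.pi_pos
  simp_rw [dGe_comp_fderiv hε y z]
  have hn : ‖z - y‖ ^ 2 = (z - y) 0 ^ 2 + (z - y) 1 ^ 2 + (z - y) 2 ^ 2 := by
    rw [EuclideanSpace.norm_sq_eq]
    simp [Fin.sum_univ_three]
  have hsq := s_sq hε (z - y)
  rw [Fin.sum_univ_three, De]
  set s := Real.sqrt (‖z - y‖ ^ 2 + ε ^ 2) with hsdef
  have he : ε ^ 2 = s ^ 2 - ((z - y) 0 ^ 2 + (z - y) 1 ^ 2 + (z - y) 2 ^ 2) := by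
    rw [hsq, hn]; ring
  rw [he]
  field_simp
  ring

end Pool.Agent.H108R4.NP
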