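import Mathlib
import Pool.Agent.H934R3.NP.Stmts

set_option autoImplicit false
set_option maxHeartbeats 4000000

open MeasureTheory Set Filter Topology
open scoped ENNReal NNReal

namespace Pool.Agent.H108R4.NP

open Pool.Agent.H934R3.NP

variable {g : E → ℝ}

lemma gradient_continuous (hg : Surf g) : Continuous (gradient g) := by
  have h1 : Continuous (fderiv ℝ g) := hg.smooth.continuous_fderiv (by simp)
  exact ((InnerProductSpace.toDual ℝ E).symm.continuous).comp h1

lemma nu_measurable (hg : Surf g) : Measurable (nu g) := by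
  have h := gradient_continuous hg
  unfold nu
  exact (h.norm.measurable.inv).smul h.measurable

lemma norm_nu_le (x : E) : ‖nu g x‖ ≤ 1 := by
  unfold nu
  rw [norm_smul, norm_inv, norm_norm]
  by_cases h : ‖gradient g x‖ = 0
  · simp [h]
  · rw [inv_mul_cancel₀ h]

lemma Sg_closed (hg : Surf g) : IsClosed (Sg g) :=
  isClosed_eq hg.smooth.continuous continuous_const

lemma Om_open (hg : Surf g) : IsOpen (Om g) :=
  isOpen_lt hg.smooth.continuous continuous_const

lemma exists_radius (hg : Surf g) : ∃ R : ℝ, 0 < R ∧ Om g ⊆ Metric.closedBall (0 : E) R ∧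
    Sg g ⊆ Metric.closedBall (0 : E) R := by
  obtain ⟨R, hR⟩ := hg.pos
  refine ⟨max R 1, by positivity, ?_, ?_⟩
  · intro x hx
    rw [mem_closedBall_zero_iff]
    by_contra h
    push Not at h
    have := hR x ((le_max_left _ _).trans h.le)
    have hx' : g x < 0 := hx
    linarith
  · intro x hx
    rw [mem_closedBall_zero_iff]
    by_contra h
    push Not at h
    have := hR x ((le_max_left _ _).trans h.le)
    have hx' : g x = 0 := hx
    linarith

lemma Sg_compact (hg : Surf g) : IsCompact (Sg g) := by
  obtain ⟨R, -, -, hS⟩ := exists_radius hg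
  exact (isCompact_closedBall (0 : E) R).of_isClosed_subset (Sg_closed hg) hS

lemma ae_mem (hg : Surf g) : ∀ᵐ y ∂(sig g), y ∈ Sg g := by
  unfold sig
  apply Measure.ae_smul_measure
  exact ae_restrict_mem (Sg_closed hg).measurableSet

lemma sig_singleton (y : E) : sig g {y} = 0 := by
  unfold sig
  have h : NullSingletonClass (Measure.hausdorffMeasure 2 : Measure E) :=
    Measure.nullSingletonClass_hausdorff E (by norm_num)
  rw [Measure.smul_apply, Measure.restrict_apply (measurableSet_singleton y)]
  have : (Measure.hausdorffMeasure 2 : Measure E) ({y} ∩ {x | g x = 0}) = 0 :=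
    measure_mono_null inter_subset_left (measure_singleton y)
  rw [this]; simp

lemma ae_ne (y : E) : ∀ᵐ z ∂(sig g), z ≠ y := by
  rw [ae_iff]; simpa using sig_singleton (g := g) y

end Pool.Agent.H108R4.NP
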