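import Mathlib
import Pool.Agent.H934R3.NP.Stmts
import Pool.Agent.H108R4.NP.Base
import Pool.Agent.H108R4.NP.Geo

set_option autoImplicit false
set_option maxHeartbeats 4000000

open MeasureTheory Set Filter Topology
open scoped ENNReal NNReal

namespace Pool.Agent.H108R4.NP.D4

open Pool.Agent.H934R3.NP Pool.Agent.H108R4.NP

/-- `1/‖z - y‖^2` is integrable on `Om g` -/
lemma integrableOn_inv_sq (hB : TaskB4) {g : E → ℝ} (hg : Surf g) (y : E) :
    IntegrableOn (fun z : E => 1 / ‖z - y‖ ^ 2) (Om g) := by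
  obtain ⟨R, hR, hOm, -⟩ := exists_radius hg
  obtain ⟨C, hC, hC'⟩ := hB.1 R
  have h1 : IntegrableOn (fun z : E => 1 / ‖z - y‖ ^ 2) (Metric.closedBall (0 : E) R) := by
    refine ⟨?_, ?_⟩
    · exact ((measurable_const.div ((measurable_id.sub_const y).norm.pow_const 2))).aestronglyMeasurable
    · rw [hasFiniteIntegral_iff_ofReal (Eventually.of_forall fun z => by positivity)]
      exact lt_of_le_of_lt (hC' y) ENNReal.ofReal_lt_top
  exact h1.mono_set hOm

/-- `G (z - y)` is integrable for `sig g` -/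
lemma integrable_G {g : E → ℝ} (hg : Surf g) (hS : SurfBd g) (y : E) :
    Integrable (fun z : E => G (z - y)) (sig g) := by
  obtain ⟨R, hR, -, hSg⟩ := exists_radius hg
  obtain ⟨hfin, C, hC, h1, -⟩ := hS
  have hpi := Real.pi_pos
  have hm : Measurable (fun z : E => G (z - y)) := by
    unfold G
    exact measurable_const.div (measurable_const.mul (measurable_id.sub_const y).norm)
  have h2 : Integrable (fun z : E => ‖y - z‖ ^ (-(3 / 2) : ℝ)) (sig g) := by
    refine ⟨?_, ?_⟩
    · exact ((measurable_id.const_sub y).norm.pow_const _).aestronglyMeasurable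
    · rw [hasFiniteIntegral_iff_ofReal (Eventually.of_forall fun z => by positivity)]
      exact lt_of_le_of_lt (h1 y) ENNReal.ofReal_lt_top
  have h3 := h2.const_mul ((‖y‖ + R) ^ (1 / 2 : ℝ) / (4 * Real.pi))
  refine h3.mono' hm.aestronglyMeasurable ?_
  filter_upwards [ae_mem hg, ae_ne (g := g) y] with z hz hzy
  have hw : 0 < ‖z - y‖ := norm_pos_iff.2 (sub_ne_zero.2 hzy)
  have hz' : ‖z‖ ≤ R := mem_closedBall_zero_iff.1 (hSg hz)
  have hle : ‖z - y‖ ≤ ‖y‖ + R := by
    calc ‖z - y‖ ≤ ‖z‖ + ‖y‖ := norm_sub_le _ _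
      _ ≤ ‖y‖ + R := by linarith
  rw [Real.norm_eq_abs, abs_of_nonneg (G_nonneg _), norm_sub_rev y z]
  unfold G
  have e1 : 1 / (4 * Real.pi * ‖z - y‖) =
      (‖z - y‖ ^ (1 / 2 : ℝ) / (4 * Real.pi)) * ‖z - y‖ ^ (-(3 / 2) : ℝ) := by
    have : ‖z - y‖ ^ (1 / 2 : ℝ) * ‖z - y‖ ^ (-(3 / 2) : ℝ) = ‖z - y‖⁻¹ := by
      rw [← Real.rpow_add hw, ← Real.rpow_neg_one]; norm_num
    rw [div_mul_eq_mul_div, this]
    field_simp
  rw [e1]
  apply mul_le_mul_of_nonneg_right _ (by positivity)
  apply div_le_div_of_nonneg_right _ (by positivity)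
  exact Real.rpow_le_rpow hw.le hle (by norm_num)

theorem t : TaskD4 := by
  intro hGG hB g hg hS y v
  have hpi := Real.pi_pos
  have hS' := hS
  obtain ⟨hfin, C, hC, h1, -⟩ := hS
  have key : ∀ ε : ℝ, 0 < ε → ∫ z in Om g, inner ℝ (dGe ε (z - y)) v =
      ∫ z, Ge ε (z - y) * inner ℝ (nu g z) v ∂(sig g) := by
    intro ε hε
    have := hGG g hg (fun z => Ge ε (z - y)) (Ge_contDiff hε y) v
    simp_rw [fderiv_Ge hε] at this
    exact this
  have L : Tendsto (fun ε : ℝ => ∫ z in Om g, inner ℝ (dGe ε (z - y)) v) (𝓝[>] 0)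
      (𝓝 (∫ z in Om g, inner ℝ (dG (z - y)) v)) := by
    apply tendsto_integral_filter_of_dominated_convergence
      (fun z => 1 / (4 * Real.pi) * (1 / ‖z - y‖ ^ 2) * ‖v‖)
    · filter_upwards [self_mem_nhdsWithin] with ε hε
      apply Continuous.aestronglyMeasurable
      have hc := (Ge_contDiff (n := 1) hε y).continuous_fderiv (by simp)
      have : (fun z : E => inner ℝ (dGe ε (z - y)) v) =
          fun z => fderiv ℝ (fun z : E => Ge ε (z - y)) z v := by
        funext z; rw [fderiv_Ge hε]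
      rw [this]
      exact hc.clm_apply continuous_const
    · refine Eventually.of_forall fun ε => Eventually.of_forall fun z => ?_
      calc ‖inner ℝ (dGe ε (z - y)) v‖ ≤ ‖dGe ε (z - y)‖ * ‖v‖ := norm_inner_le_norm _ _
        _ ≤ 1 / (4 * Real.pi) * (1 / ‖z - y‖ ^ 2) * ‖v‖ :=
          mul_le_mul_of_nonneg_right (norm_dGe_le _ _) (norm_nonneg _)
    · exact ((integrableOn_inv_sq hB hg y).const_mul _).mul_const _
    · refine Eventually.of_forall fun z => ?_
      by_cases hz : z - y = 0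
      · rw [hz]
        simp only [dGe_zero, dG_zero]
        exact tendsto_const_nhds
      · exact (dGe_tendsto hz).inner tendsto_const_nhds
  have Rr : Tendsto (fun ε : ℝ => ∫ z, Ge ε (z - y) * inner ℝ (nu g z) v ∂(sig g)) (𝓝[>] 0)
      (𝓝 (∫ z, G (z - y) * inner ℝ (nu g z) v ∂(sig g))) := by
    apply tendsto_integral_filter_of_dominated_convergence
      (fun z => G (z - y) * ‖v‖)
    · filter_upwards [self_mem_nhdsWithin] with ε hε
      exact ((Ge_contDiff (n := 1) hε y).continuous.measurable.mul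
        ((nu_measurable hg).inner measurable_const)).aestronglyMeasurable
    · refine Eventually.of_forall fun ε => ?_
      filter_upwards [ae_ne (g := g) y] with z hz
      rw [norm_mul]
      apply mul_le_mul
      · rw [Real.norm_eq_abs, abs_of_nonneg (Ge_nonneg _ _)]
        exact Ge_le_G ε (sub_ne_zero.2 hz)
      · calc ‖inner ℝ (nu g z) v‖ ≤ ‖nu g z‖ * ‖v‖ := norm_inner_le_norm _ _
          _ ≤ 1 * ‖v‖ := mul_le_mul_of_nonneg_right (norm_nu_le z) (norm_nonneg _)
          _ = ‖v‖ := one_mul _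
      · exact norm_nonneg _
      · exact G_nonneg _
    · exact (integrable_G hg hS' y).mul_const _
    · filter_upwards [ae_ne (g := g) y] with z hz
      exact (Ge_tendsto (sub_ne_zero.2 hz)).mul_const _
  have E : (fun ε : ℝ => ∫ z in Om g, inner ℝ (dGe ε (z - y)) v) =ᶠ[𝓝[>] 0]
      (fun ε : ℝ => ∫ z, Ge ε (z - y) * inner ℝ (nu g z) v ∂(sig g)) := by
    filter_upwards [self_mem_nhdsWithin] with ε hε using key ε hε
  exact tendsto_nhds_unique L (Rr.congr' E.symm)

end Pool.Agent.H108R4.NP.D4
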