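import Mathlib
import Pool.Agent.H934R3.NP.Stmts
import Pool.Agent.H108R4.NP.Base
import Pool.Agent.H108R4.NP.Geo

set_option autoImplicit false
set_option maxHeartbeats 4000000

open MeasureTheory Set Filter Topology
open scoped ENNReal NNReal

namespace Pool.Agent.H108R4.NP.D5

open Pool.Agent.H934R3.NP Pool.Agent.H108R4.NP

lemma dGe_continuous {ε : ℝ} (hε : 0 < ε) (y : E) : Continuous (fun z : E => dGe ε (z - y)) := by
  unfold dGe
  refine Continuous.smul (f := fun z : E => -(1 / (4 * Real.pi * √(‖z - y‖ ^ 2 + ε ^ 2) ^ 3)))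
    (g := fun z : E => z - y) ?_ (continuous_id.sub continuous_const)
  apply Continuous.neg
  apply Continuous.div continuous_const
  · exact continuous_const.mul ((s_contDiff (n := 0) hε y).continuous.pow 3)
  · intro z
    have := s_pos hε (z - y)
    have := Real.pi_pos
    positivity

lemma inner_eq_sum (a b : E) : inner ℝ a b = ∑ i : Fin 3, a i * inner ℝ b (EuclideanSpace.single i (1 : ℝ)) := by
  rw [real_inner_comm, PiLp.inner_apply]
  apply Finset.sum_congr rfl
  intro i _
  simp [EuclideanSpace.inner_single_right]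

/-- flux of the regularised field -/
lemma flux (hGG : GG) {g : E → ℝ} (hg : Surf g) (hfin : IsFiniteMeasure (sig g)) {ε : ℝ} (hε : 0 < ε)
    (z : E) :
    - ∫ y in Om g, De ε (y - z) = ∫ y, inner ℝ (dGe ε (y - z)) (nu g y) ∂(sig g) := by
  have hpi := Real.pi_pos
  obtain ⟨R, hR, hOm, hSg⟩ := exists_radius hg
  have h1 : ∀ i : Fin 3, IntegrableOn (fun y : E =>
      fderiv ℝ (fun y : E => dGe ε (y - z) i) y (EuclideanSpace.single i 1)) (Om g) := by
    intro i
    have hc : Continuous (fun y : E =>
        fderiv ℝ (fun y : E => dGe ε (y - z) i) y (EuclideanSpace.single i 1)) :=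
      ((dGe_comp_contDiff (n := 1) hε z i).continuous_fderiv (by simp)).clm_apply continuous_const
    exact (hc.continuousOn.integrableOn_compact (isCompact_closedBall (0 : E) R)).mono_set hOm
  have h2 : ∀ i : Fin 3, Integrable (fun y : E =>
      dGe ε (y - z) i * inner ℝ (nu g y) (EuclideanSpace.single i (1 : ℝ))) (sig g) := by
    intro i
    have hc : Continuous (fun y : E => dGe ε (y - z) i) := (dGe_comp_contDiff (n := 1) hε z i).continuous
    obtain ⟨M, hM⟩ := (Sg_compact hg).exists_bound_of_continuousOn hc.continuousOn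
    refine Integrable.mono' (integrable_const (M * 1))
      ((hc.measurable.mul ((nu_measurable hg).inner measurable_const)).aestronglyMeasurable) ?_
    filter_upwards [ae_mem hg] with y hy
    rw [norm_mul]
    apply mul_le_mul (hM y hy) _ (norm_nonneg _) ((norm_nonneg _).trans (hM y hy))
    calc ‖inner ℝ (nu g y) (EuclideanSpace.single i (1 : ℝ))‖
        ≤ ‖nu g y‖ * ‖(EuclideanSpace.single i (1 : ℝ) : E)‖ := norm_inner_le_norm _ _
      _ ≤ 1 := by simpa using norm_nu_le y
  calc - ∫ y in Om g, De ε (y - z)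
      = ∫ y in Om g, ∑ i : Fin 3,
          fderiv ℝ (fun y : E => dGe ε (y - z) i) y (EuclideanSpace.single i 1) := by
        rw [← integral_neg]
        apply integral_congr_ae
        exact Eventually.of_forall fun y => (sum_fderiv_dGe hε z y).symm
    _ = ∑ i : Fin 3, ∫ y in Om g,
          fderiv ℝ (fun y : E => dGe ε (y - z) i) y (EuclideanSpace.single i 1) :=
        integral_finsetSum _ fun i _ => h1 i
    _ = ∑ i : Fin 3, ∫ y, dGe ε (y - z) i *
          inner ℝ (nu g y) (EuclideanSpace.single i (1 : ℝ)) ∂(sig g) := by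
        apply Finset.sum_congr rfl
        intro i _
        exact hGG g hg _ (dGe_comp_contDiff hε z i) _
    _ = ∫ y, ∑ i : Fin 3, dGe ε (y - z) i *
          inner ℝ (nu g y) (EuclideanSpace.single i (1 : ℝ)) ∂(sig g) :=
        (integral_finsetSum _ fun i _ => h2 i).symm
    _ = ∫ y, inner ℝ (dGe ε (y - z)) (nu g y) ∂(sig g) := by
        apply integral_congr_ae
        exact Eventually.of_forall fun y => (inner_eq_sum _ _).symm

theorem t : TaskD5 := by
  intro hGG hD1 g hg hS z hz
  obtain ⟨hfin, C, hC, -, -⟩ := hS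
  have hpi := Real.pi_pos
  have L : Tendsto (fun ε : ℝ => - ∫ y in Om g, De ε (y - z)) (𝓝[>] 0) (𝓝 (-1)) := by
    have := (hD1 g hg (fun _ => 1) continuous_const).2 z hz
    simpa using this.neg
  -- distance from the surface
  have hz' : z ∉ Sg g := by
    intro h
    have h1 : g z = 0 := h
    have h2 : g z < 0 := hz
    linarith
  obtain ⟨δ, hδ, hball⟩ := Metric.isOpen_iff.1 (Sg_closed hg).isOpen_compl z hz'
  have hdist : ∀ y ∈ Sg g, δ ≤ ‖y - z‖ := by
    intro y hy
    by_contra h
    push Not at h
    exact hball (by rw [Metric.mem_ball, dist_eq_norm]; exact h) hy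
  have Rr : Tendsto (fun ε : ℝ => ∫ y, inner ℝ (dGe ε (y - z)) (nu g y) ∂(sig g)) (𝓝[>] 0)
      (𝓝 (∫ y, inner ℝ (dG (y - z)) (nu g y) ∂(sig g))) := by
    apply tendsto_integral_filter_of_dominated_convergence
      (fun _ => 1 / (4 * Real.pi) * (1 / δ ^ 2))
    · filter_upwards [self_mem_nhdsWithin] with ε hε
      exact ((dGe_continuous hε z).measurable.inner (nu_measurable hg)).aestronglyMeasurable
    · refine Eventually.of_forall fun ε => ?_
      filter_upwards [ae_mem hg] with y hy
      have hd := hdist y hy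
      calc ‖inner ℝ (dGe ε (y - z)) (nu g y)‖ ≤ ‖dGe ε (y - z)‖ * ‖nu g y‖ := norm_inner_le_norm _ _
        _ ≤ ‖dGe ε (y - z)‖ * 1 := mul_le_mul_of_nonneg_left (norm_nu_le y) (norm_nonneg _)
        _ = ‖dGe ε (y - z)‖ := mul_one _
        _ ≤ 1 / (4 * Real.pi) * (1 / ‖y - z‖ ^ 2) := norm_dGe_le _ _
        _ ≤ 1 / (4 * Real.pi) * (1 / δ ^ 2) := by
          apply mul_le_mul_of_nonneg_left _ (by positivity)
          apply one_div_le_one_div_of_le (by positivity)
          exact pow_le_pow_left₀ hδ.le hd 2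
    · exact integrable_const _
    · filter_upwards [ae_mem hg] with y hy
      have hne : y - z ≠ 0 := by
        have := hdist y hy
        intro h
        rw [h, norm_zero] at this
        linarith
      exact (dGe_tendsto hne).inner tendsto_const_nhds
  have E1 : (fun ε : ℝ => - ∫ y in Om g, De ε (y - z)) =ᶠ[𝓝[>] 0]
      (fun ε : ℝ => ∫ y, inner ℝ (dGe ε (y - z)) (nu g y) ∂(sig g)) := by
    filter_upwards [self_mem_nhdsWithin] with ε hε using flux hGG hg hfin hε z
  have hlim := tendsto_nhds_unique L (Rr.congr' E1.symm)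
  have h3 : (fun y => inner ℝ (dG (z - y)) (nu g y)) = fun y => - inner ℝ (dG (y - z)) (nu g y) := by
    funext y
    rw [← neg_sub y z, dG_neg, inner_neg_left]
  rw [h3, integral_neg, ← hlim]
  norm_num

end Pool.Agent.H108R4.NP.D5
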