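import Mathlib
import Pool.Agent.H934R3.NP.Stmts2

set_option autoImplicit false
set_option maxHeartbeats 4000000

open MeasureTheory Set Filter Topology
open scoped ENNReal NNReal

namespace Pool.Agent.H108R4.NP.M3

open Pool.Agent.H934R3.NP

/-- Jensen / Cauchy-Schwarz, no measurability hypothesis -/
lemma jensen {α : Type*} [MeasurableSpace α] (μ : Measure α) [IsFiniteMeasure μ] (f q : α → ℝ)
    (hq : Integrable q μ) (hq0 : ∀ x, 0 ≤ q x) (hfq : ∀ x, f x ^ 2 ≤ q x) :
    (∫ x, f x ∂μ) ^ 2 ≤ μ.real univ * ∫ x, q x ∂μ := by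
  by_cases hf : Integrable f μ
  · have hf2 : Integrable (fun x => f x ^ 2) μ := by
      refine hq.mono' (hf.aestronglyMeasurable.pow 2) (Eventually.of_forall fun x => ?_)
      rw [Real.norm_eq_abs, abs_of_nonneg (sq_nonneg _)]
      exact hfq x
    have h1 : ∫ x, f x ^ 2 ∂μ ≤ ∫ x, q x ∂μ := integral_mono hf2 hq hfq
    have h2 : ∀ c : ℝ, 0 ≤ (∫ x, f x ^ 2 ∂μ) - 2 * c * (∫ x, f x ∂μ) + c ^ 2 * μ.real univ := by
      intro c
      have h3 : ∫ x, (f x - c) ^ 2 ∂μ =
          (∫ x, f x ^ 2 ∂μ) - 2 * c * (∫ x, f x ∂μ) + c ^ 2 * μ.real univ := by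
        have : (fun x => (f x - c) ^ 2) = fun x => (f x ^ 2 - 2 * c * f x) + c ^ 2 := by
          funext x; ring
        have e1 : Integrable (fun x => f x ^ 2 - 2 * c * f x) μ := hf2.sub (hf.const_mul _)
        rw [this, integral_add e1 (integrable_const _),
          integral_sub hf2 (hf.const_mul _), integral_const_mul, integral_const, smul_eq_mul,
          mul_comm (μ.real univ)]
      rw [← h3]
      exact integral_nonneg fun x => sq_nonneg _
    have hV : 0 ≤ μ.real univ := measureReal_nonneg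
    rcases hV.eq_or_lt with hV0 | hV0
    · have hμ : μ = 0 := by
        rw [← Measure.measure_univ_eq_zero]
        exact (measureReal_eq_zero_iff).1 hV0.symm
      subst hμ
      simp
    · have h4 := h2 ((∫ x, f x ∂μ) / μ.real univ)
      have h5 : (∫ x, f x ∂μ) ^ 2 ≤ μ.real univ * ∫ x, f x ^ 2 ∂μ := by
        have h6 : (∫ x, f x ^ 2 ∂μ) - 2 * ((∫ x, f x ∂μ) / μ.real univ) * (∫ x, f x ∂μ)
            + ((∫ x, f x ∂μ) / μ.real univ) ^ 2 * μ.real univ =
            (μ.real univ * (∫ x, f x ^ 2 ∂μ) - (∫ x, f x ∂μ) ^ 2) / μ.real univ := by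
          field_simp
          ring
        rw [h6] at h4
        have := (div_nonneg_iff.1 h4)
        rcases this with ⟨h7, -⟩ | ⟨-, h7⟩
        · linarith
        · linarith
      exact h5.trans (mul_le_mul_of_nonneg_left h1 hV)
  · rw [integral_undef hf]
    have : 0 ≤ ∫ x, q x ∂μ := integral_nonneg hq0
    have hV : 0 ≤ μ.real univ := measureReal_nonneg
    have := mul_nonneg hV this
    linarith

theorem t : TaskM3 := by
  intro g hg hS hE hF S Ks K hO n X hV
  have hsym : ∀ φ ψ : Lp ℝ 2 (sig g), inner ℝ φ (S ψ) = inner ℝ ψ (S φ) := by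
    intro φ ψ
    rw [hO.symS φ ψ, real_inner_comm]
  have hpos : ∀ φ : Lp ℝ 2 (sig g), inner ℝ φ (S ((1 / 2 : ℝ) • φ - Ks φ)) =
      ∫ z in Om g, ‖uu (sig g) φ z‖ ^ 2 := by
    intro φ
    rw [← (hE S Ks hO.repS hO.repKs φ φ).2]
    apply integral_congr_ae
    exact Eventually.of_forall fun z => real_inner_self_eq_norm_sq _
  have hfinOm : volume (Om g) < ∞ := by
    obtain ⟨R, hR⟩ := hg.pos
    have hsub : Om g ⊆ Metric.closedBall (0 : E) R := by
      intro x hx
      rw [mem_closedBall_zero_iff]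
      by_contra h
      push Not at h
      have h1 := hR x h.le
      have h2 : g x < 0 := hx
      linarith
    exact lt_of_le_of_lt (measure_mono hsub) measure_closedBall_lt_top
  have hfin : IsFiniteMeasure (volume.restrict (Om g)) := ⟨by simpa using hfinOm⟩
  refine ⟨fun i φ => ?_, fun φ => ?_, fun φ ψ => ?_⟩
  · have h1 := hF S hO.repS (EE i) (n i) φ (hV.hn i)
    rw [← h1, hpos φ]
    have h2 := jensen (volume.restrict (Om g)) (fun z => inner ℝ (uu (sig g) φ z) (EE i))
      (fun z => ‖uu (sig g) φ z‖ ^ 2) (hE S Ks hO.repS hO.repKs φ φ).1 (fun z => sq_nonneg _)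
      (fun z => by
        have h3 : |inner ℝ (uu (sig g) φ z) (EE i)| ≤ ‖uu (sig g) φ z‖ * ‖EE i‖ :=
          abs_real_inner_le_norm _ _
        have h4 : ‖EE i‖ = 1 := by simp [EE]
        rw [h4, mul_one] at h3
        exact sq_le_sq' (by linarith [neg_abs_le (inner ℝ (uu (sig g) φ z) (EE i))])
          ((le_abs_self _).trans h3))
    have h5 : (volume.restrict (Om g)).real univ = Vol g := by
      simp [Vol, Measure.real]
    rw [h5] at h2
    exact h2
  · rw [hpos φ]
    exact integral_nonneg fun z => sq_nonneg _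
  · have h1 := (hE S Ks hO.repS hO.repKs φ ψ).2
    have h2 := (hE S Ks hO.repS hO.repKs ψ φ).2
    have h3 : ∫ z in Om g, inner ℝ (uu (sig g) φ z) (uu (sig g) ψ z) =
        ∫ z in Om g, inner ℝ (uu (sig g) ψ z) (uu (sig g) φ z) := by
      apply integral_congr_ae
      exact Eventually.of_forall fun z => real_inner_comm _ _
    rw [h1, h2, map_sub, map_sub, map_smul, map_smul, inner_sub_right, inner_sub_right,
      inner_smul_right, inner_smul_right, hsym φ ψ] at h3
    have h4 : inner ℝ φ (S (Ks ψ)) = inner ℝ ψ (S (Ks φ)) := by linarith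
    rw [h4, hsym ψ (Ks φ)]

end Pool.Agent.H108R4.NP.M3
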