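import Mathlib
import Pool.Agent.H934R3.NP.Stmts2
import Pool.Agent.H108R4.NP.Geo

set_option autoImplicit false
set_option maxHeartbeats 4000000

open MeasureTheory Set Filter Topology
open scoped ENNReal NNReal

namespace Pool.Agent.H108R4.NP.M6

open Pool.Agent.H934R3.NP Pool.Agent.H108R4.NP

theorem t : TaskM6 := by
  intro g hg hfin
  obtain ⟨R, hR, -, hSg⟩ := exists_radius hg
  have hn : ∀ i : Fin 3, MemLp (fun y : E => inner ℝ (nu g y) (EE i)) 2 (sig g) := by
    intro i
    refine MemLp.of_bound ((nu_measurable hg).inner measurable_const).aestronglyMeasurable 1 ?_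
    refine Eventually.of_forall fun y => ?_
    calc ‖inner ℝ (nu g y) (EE i)‖ ≤ ‖nu g y‖ * ‖EE i‖ := norm_inner_le_norm _ _
      _ ≤ 1 := by simpa [EE] using norm_nu_le y
  have hX : ∀ i : Fin 3, MemLp (fun y : E => y i) 2 (sig g) := by
    intro i
    have hc : Continuous (fun y : E => y i) := (EuclideanSpace.proj i : E →L[ℝ] ℝ).continuous
    refine MemLp.of_bound hc.aestronglyMeasurable R ?_
    filter_upwards [ae_mem hg] with y hy
    exact (PiLp.norm_apply_le y i).trans (mem_closedBall_zero_iff.1 (hSg hy))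
  refine ⟨fun i => (hn i).toLp _, fun i => (hX i).toLp _, ⟨fun i => ?_, fun i => ?_⟩⟩
  · exact (hn i).coeFn_toLp
  · exact (hX i).coeFn_toLp

end Pool.Agent.H108R4.NP.M6
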